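import Pool.Agent.N389.QF.Poly
import Pool.Agent.N389.QB.Bes

set_option autoImplicit false

/-!
# Cells of the group `F_p^n` in sets determined by polynomials of degree two
-/

namespace Pool.Agent.N389.QF

open Finset Module
open Pool.Agent.N389.QB (Free graph_rel)

variable {p : ℕ} [Fact p.Prime]

/-- the first coordinates -/
def J0 (p n : ℕ) [Fact p.Prime] : (Fin n → ZMod p) →ₗ[ZMod p] (Fin n → ZMod p × ZMod p) :=
  LinearMap.pi fun i => (LinearMap.inl (ZMod p) (ZMod p) (ZMod p)).comp (LinearMap.proj i)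

/-- the second coordinates -/
def J1 (p n : ℕ) [Fact p.Prime] : (Fin n → ZMod p) →ₗ[ZMod p] (Fin n → ZMod p × ZMod p) :=
  LinearMap.pi fun i => (LinearMap.inr (ZMod p) (ZMod p) (ZMod p)).comp (LinearMap.proj i)

lemma J_apply {n : ℕ} (q : Fin n → ZMod p × ZMod p) (x y : Fin n → ZMod p) (i : Fin n) :
    (q + J0 p n x + J1 p n y) i = ((q i).1 + x i, (q i).2 + y i) := by
  apply Prod.ext <;> simp [J0, J1]

/-- slices of free sets are free -/
lemma slice_cells {n m e N : ℕ} (H : Finset (Fin n → ZMod p × ZMod p))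
    (hH : Free (A := fun _ : Fin n => ZMod p) (fun _ a b => a + b) e N H)
    (q : Fin n → ZMod p × ZMod p) (θ : (Fin m → ZMod p) →ₗ[ZMod p] (Fin n → ZMod p))
    (hθ : Function.Injective θ) :
    Free (A := fun _ : Fin m => ZMod p) (fun _ a b => a + b) e N
      (univ.filter fun t : Fin m → ZMod p × ZMod p =>
        q + J0 p n (θ fun i => (t i).1) + J1 p n (θ fun i => (t i).2) ∈ H) := by
  classical
  intro T hT hTe R C S hRCS
  have hinj : Function.Injective fun t : Fin m → ZMod p × ZMod p =>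
      q + J0 p n (θ fun i => (t i).1) + J1 p n (θ fun i => (t i).2) := by
    intro t t' h
    have h1 : (θ fun i => (t i).1) = θ fun i => (t' i).1 := by
      funext i
      have h2 := congrArg Prod.fst (congrFun h i)
      simp only [J_apply] at h2
      exact add_left_cancel h2
    have h3 : (θ fun i => (t i).2) = θ fun i => (t' i).2 := by
      funext i
      have h2 := congrArg Prod.snd (congrFun h i)
      simp only [J_apply] at h2
      exact add_left_cancel h2
    funext i
    exact Prod.ext (congrFun (hθ h1) i) (congrFun (hθ h3) i)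
  have h1 := hH (T.image fun t => q + J0 p n (θ fun i => (t i).1) + J1 p n (θ fun i => (t i).2))
    ?_ ?_ (R.image fun x => (fun i => (q i).1 + θ x i)) (C.image fun x => (fun i => (q i).2 + θ x i))
    (S.image fun x => (fun i => (q i).1 + (q i).2 + θ x i)) ?_
  · have a1 : (R.image fun x => (fun i => (q i).1 + θ x i : Fin n → ZMod p)).card ≤ R.card :=
      card_image_le
    have a2 : (C.image fun x => (fun i => (q i).2 + θ x i : Fin n → ZMod p)).card ≤ C.card :=
      card_image_le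
    have a3 : (S.image fun x => (fun i => (q i).1 + (q i).2 + θ x i : Fin n → ZMod p)).card ≤
      S.card := card_image_le
    omega
  · intro z hz
    obtain ⟨t, ht, rfl⟩ := mem_image.1 hz
    exact (mem_filter.1 (hT ht)).2
  · rw [card_image_of_injective _ hinj, hTe]
  · intro z hz
    obtain ⟨t, ht, rfl⟩ := mem_image.1 hz
    obtain ⟨h2, h3, h4⟩ := hRCS t ht
    refine ⟨mem_image.2 ⟨_, h2, ?_⟩, mem_image.2 ⟨_, h3, ?_⟩, mem_image.2 ⟨_, h4, ?_⟩⟩
    · funext i
      rw [J_apply]
    · funext i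
      rw [J_apply]
    · funext i
      rw [J_apply]
      have e1 : (fun i => (t i).1 + (t i).2 : Fin m → ZMod p) =
          (fun i => (t i).1) + fun i => (t i).2 := rfl
      rw [e1, map_add, Pi.add_apply]
      ring

/-- free sets are small in sets determined by polynomials of degree two -/
theorem free_quad {n T m e N : ℕ} (f : Fin T → (Fin n → ZMod p × ZMod p) → ZMod p)
    (hf : ∀ i, Quad (f i))
    (hdim : (m + 2 * T + (4 * T * (p - 1) + 1)) * (8 * T + 1) ≤ n) (η : ℝ) (hη : 0 ≤ η)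
    (hcells : Y426.BES.Cells (ι := Fin m) (A := fun _ => ZMod p) (fun _ a b => a + b) η e N)
    (F H : Finset (Fin n → ZMod p × ZMod p)) (hF : ∀ x y, (∀ i, f i x = f i y) → (x ∈ F ↔ y ∈ F))
    (hH : Free (A := fun _ : Fin n => ZMod p) (fun _ a b => a + b) e N H) :
    ((H ∩ F).card : ℝ) ≤ η * F.card := by
  classical
  have hp : 0 < p := (Fact.out : p.Prime).pos
  have hp0 : (0 : ℝ) < p := by exact_mod_cast hp
  have h1 := main (p := p) (m := m) (J0 p n) (J1 p n) f hf
    (by rw [finrank_fintype_fun_eq_card, Fintype.card_fin]; exact hdim) F H hF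
    ⌊η * (p : ℝ) ^ (2 * m)⌋₊ (by
      intro q θ hθ
      apply Nat.le_floor
      have h2 : (univ.filter fun u : (Fin m → ZMod p) × (Fin m → ZMod p) =>
          q + J0 p n (θ u.1) + J1 p n (θ u.2) ∈ H).card =
          (univ.filter fun t : Fin m → ZMod p × ZMod p =>
            q + J0 p n (θ fun i => (t i).1) + J1 p n (θ fun i => (t i).2) ∈ H).card := by
        symm
        refine card_bijective (Equiv.arrowProdEquivProdArrow (Fin m) (fun _ => ZMod p)
          (fun _ => ZMod p)) (Equiv.bijective _) fun t => ?_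
        rw [mem_filter, mem_filter]
        simp only [mem_univ, true_and]
        rfl
      rw [h2]
      by_contra hcon
      push Not at hcon
      obtain ⟨T', hT', hTe, R, C, S, hRCS, h⟩ := hcells _ (by
        refine le_trans (le_of_eq ?_) hcon.le
        rw [prod_const, card_univ, Fintype.card_fin, ZMod.card]
        push_cast
        rw [← pow_mul, mul_comm m 2])
      exact absurd (slice_cells H hH q θ hθ T' hT' hTe R C S h) (by omega))
  have h2 : ((p : ℝ) ^ (2 * m)) * ((H ∩ F).card : ℝ) ≤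
      (⌊η * (p : ℝ) ^ (2 * m)⌋₊ : ℕ) * F.card := by exact_mod_cast h1
  have h3 : ((⌊η * (p : ℝ) ^ (2 * m)⌋₊ : ℕ) : ℝ) ≤ η * (p : ℝ) ^ (2 * m) :=
    Nat.floor_le (by positivity)
  have h4 : ((p : ℝ) ^ (2 * m)) * ((H ∩ F).card : ℝ) ≤ (p : ℝ) ^ (2 * m) * (η * F.card) := by
    refine h2.trans ((mul_le_mul_of_nonneg_right h3 (Nat.cast_nonneg _)).trans (le_of_eq ?_))
    ring
  exact le_of_mul_le_mul_left h4 (by positivity)

lemma dimsp (q m : ℕ) (hq : 1 ≤ q) : ∃ n₀ : ℕ, ∀ n T : ℕ, n₀ ≤ n → 400 * q * T ^ 2 ≤ n →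
    (m + 2 * T + (4 * T * (q - 1) + 1)) * (8 * T + 1) ≤ n := by
  obtain ⟨K, hK⟩ : ∃ K, K = 8 * m + 8 + 4 * q := ⟨_, rfl⟩
  refine ⟨(32 * q + 2) * K ^ 2, fun n T hn hT => ?_⟩
  have e0 : 4 * T * (q - 1) + 4 * T = 4 * T * q := by
    rw [← Nat.mul_succ]
    congr 1
    omega
  have h0 : m + 2 * T + (4 * T * (q - 1) + 1) ≤ m + 4 * T * q + 1 := by omega
  have h1 : (m + 2 * T + (4 * T * (q - 1) + 1)) * (8 * T + 1) ≤
      32 * q * T ^ 2 + T * K + K := by
    refine (Nat.mul_le_mul_right _ h0).trans ?_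
    rw [hK]
    nlinarith [Nat.zero_le (q * T), Nat.zero_le (m * T)]
  refine h1.trans ?_
  have hK1 : 1 ≤ K := by omega
  rcases Nat.lt_or_ge T K with h | h
  · refine le_trans ?_ hn
    have h2 : T ^ 2 ≤ K ^ 2 := Nat.pow_le_pow_left h.le 2
    have h3 : T * K ≤ K ^ 2 := by rw [sq]; exact Nat.mul_le_mul_right _ h.le
    have h4 : K ≤ K ^ 2 := by rw [sq]; exact Nat.le_mul_of_pos_left _ hK1
    have h5 : 32 * q * T ^ 2 ≤ 32 * q * K ^ 2 := Nat.mul_le_mul_left _ h2
    have e : (32 * q + 2) * K ^ 2 = 32 * q * K ^ 2 + K ^ 2 + K ^ 2 := by ring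
    omega
  · have h2 : T * K ≤ T ^ 2 := by rw [sq]; exact Nat.mul_le_mul_left _ h
    have h3 : K ≤ T ^ 2 := by rw [sq]; exact h.trans (Nat.le_mul_of_pos_left _ (by omega))
    have h4 : T ^ 2 ≤ q * T ^ 2 := Nat.le_mul_of_pos_left _ hq
    have e : 400 * q * T ^ 2 = 400 * (q * T ^ 2) := by ring
    have e' : 32 * q * T ^ 2 = 32 * (q * T ^ 2) := by ring
    omega

end Pool.Agent.N389.QF
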