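import Mathlib

set_option autoImplicit false

/-!
# Common isotropic subspaces of bilinear forms over a prime field
-/

namespace Pool.Agent.N389.QF

open Finset Module

variable {p : ℕ} [Fact p.Prime]

/-- zero-sum subfamilies, from the theorem of Chevalley and Warning -/
lemma zero_sum {I : Type} [Fintype I] (c : I → Fin (Fintype.card I * (p - 1) + 1) → ZMod p) :
    ∃ t : Fin (Fintype.card I * (p - 1) + 1) → ZMod p, t ≠ 0 ∧ (∀ j, t j * t j = t j) ∧
      ∀ i, ∑ j, t j * c i j = 0 := by
  classical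
  have hp : 2 ≤ p := (Fact.out : p.Prime).two_le
  obtain ⟨f, hf⟩ : ∃ f : I → MvPolynomial (Fin (Fintype.card I * (p - 1) + 1)) (ZMod p),
    f = fun i => ∑ j, MvPolynomial.C (c i j) * MvPolynomial.X j ^ (p - 1) := ⟨_, rfl⟩
  have hdeg : ∀ i, (f i).totalDegree ≤ p - 1 := by
    intro i
    rw [hf]
    refine (MvPolynomial.totalDegree_finsetSum _ _).trans (Finset.sup_le fun j _ => ?_)
    refine (MvPolynomial.totalDegree_mul _ _).trans ?_
    rw [MvPolynomial.totalDegree_C, MvPolynomial.totalDegree_X_pow, zero_add]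
  have hlt : (∑ i, (f i).totalDegree) < Fintype.card (Fin (Fintype.card I * (p - 1) + 1)) := by
    refine lt_of_le_of_lt (sum_le_sum fun i _ => hdeg i) ?_
    rw [sum_const, card_univ, smul_eq_mul, Fintype.card_fin]
    omega
  have hdvd := char_dvd_card_solutions_of_fintype_sum_lt p hlt
  have heval : ∀ (x : Fin (Fintype.card I * (p - 1) + 1) → ZMod p) i, MvPolynomial.eval x (f i) =
      ∑ j, c i j * x j ^ (p - 1) := by
    intro x i
    simp [hf]
  have h0 : ∀ i, MvPolynomial.eval (0 : Fin (Fintype.card I * (p - 1) + 1) → ZMod p) (f i) = 0 := by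
    intro i
    rw [heval]
    refine sum_eq_zero fun j _ => ?_
    rw [Pi.zero_apply, zero_pow (by omega), mul_zero]
  obtain ⟨x, hx⟩ : ∃ x : {x : Fin (Fintype.card I * (p - 1) + 1) → ZMod p // ∀ i, MvPolynomial.eval x (f i) = 0},
      x ≠ ⟨0, h0⟩ := by
    by_contra hcon
    push Not at hcon
    have h1 : Fintype.card {x : Fin (Fintype.card I * (p - 1) + 1) → ZMod p // ∀ i, MvPolynomial.eval x (f i) = 0} = 1 :=
      Fintype.card_eq_one_iff.2 ⟨_, hcon⟩
    rw [h1] at hdvd
    have := Nat.le_of_dvd one_pos hdvd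
    omega
  refine ⟨fun j => x.1 j ^ (p - 1), ?_, ?_, ?_⟩
  · intro h
    apply hx
    apply Subtype.ext
    funext j
    have h2 := congrFun h j
    simp only [Pi.zero_apply] at h2 ⊢
    exact pow_eq_zero_iff (by omega) |>.1 h2
  · intro j
    show x.1 j ^ (p - 1) * x.1 j ^ (p - 1) = x.1 j ^ (p - 1)
    rcases eq_or_ne (x.1 j) 0 with h | h
    · rw [h, zero_pow (by omega), mul_zero]
    · rw [ZMod.pow_card_sub_one_eq_one h, mul_one]
  · intro i
    have h3 := x.2 i
    rw [heval] at h3
    exact (sum_congr rfl fun j _ => mul_comm _ _).trans h3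

section pick

variable {X : Type} [AddCommGroup X] [Module (ZMod p) X] [Module.Finite (ZMod p) X]
  {I : Type} [Fintype I]

lemma pick (β : I → X →ₗ[ZMod p] X →ₗ[ZMod p] ZMod p) (v : X) (hv : v ≠ 0) :
    ∃ (φ : X →ₗ[ZMod p] ZMod p) (Y : Submodule (ZMod p) X), φ v = 1 ∧
      (∀ x ∈ Y, φ x = 0 ∧ ∀ i, β i v x = 0 ∧ β i x v = 0) ∧
      finrank (ZMod p) X ≤ finrank (ZMod p) Y + (2 * Fintype.card I + 1) := by
  obtain ⟨φ, hφ⟩ := LinearMap.exists_leftInverse_of_injective
    (LinearMap.toSpanSingleton (ZMod p) X v) (by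
      rw [LinearMap.ker_eq_bot']
      intro a ha
      rw [LinearMap.toSpanSingleton_apply] at ha
      exact (smul_eq_zero.1 ha).resolve_right hv)
  have hφv : φ v = 1 := by
    have := LinearMap.congr_fun hφ 1
    simpa using this
  set Φ : X →ₗ[ZMod p] (ZMod p × (I → ZMod p) × (I → ZMod p)) :=
    φ.prod ((LinearMap.pi fun i => β i v).prod (LinearMap.pi fun i => (β i).flip v)) with hΦ
  refine ⟨φ, LinearMap.ker Φ, hφv, ?_, ?_⟩
  · intro x hx
    rw [LinearMap.mem_ker, hΦ] at hx
    have h1 := congrArg Prod.fst hx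
    have h2 := congrArg (fun z => z.2.1) hx
    have h3 := congrArg (fun z => z.2.2) hx
    refine ⟨h1, fun i => ⟨congrFun h2 i, congrFun h3 i⟩⟩
  · have h1 := LinearMap.finrank_range_add_finrank_ker Φ
    have h2 := Submodule.finrank_le (LinearMap.range Φ)
    have h3 : finrank (ZMod p) (ZMod p × (I → ZMod p) × (I → ZMod p)) =
        1 + (Fintype.card I + Fintype.card I) := by
      rw [finrank_prod, finrank_prod, finrank_self, finrank_fintype_fun_eq_card]
    omega

end pick

/-- many mutually orthogonal vectors -/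
lemma orth {I : Type} [Fintype I] (N : ℕ) : ∀ (X : Type) [AddCommGroup X] [Module (ZMod p) X]
    [Module.Finite (ZMod p) X] (β : I → X →ₗ[ZMod p] X →ₗ[ZMod p] ZMod p),
    N * (2 * Fintype.card I + 1) ≤ finrank (ZMod p) X →
    ∃ w : Fin N → X, (∀ t : Fin N → ZMod p, ∑ j, t j • w j = 0 → t = 0) ∧
      ∀ j k, j ≠ k → ∀ i, β i (w j) (w k) = 0 := by
  induction N with
  | zero =>
    intro X _ _ _ β _
    exact ⟨fun j => j.elim0, fun t _ => Subsingleton.elim _ _, fun j => j.elim0⟩
  | succ N ih =>
    intro X _ _ _ β h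
    have hpos : 0 < finrank (ZMod p) X := by
      refine lt_of_lt_of_le ?_ h
      positivity
    obtain ⟨v, hv⟩ := finrank_pos_iff_exists_ne_zero.1 hpos
    obtain ⟨φ, Y, hφ, hY, hf⟩ := pick β v hv
    obtain ⟨w, hw, horth⟩ := ih Y (fun i => (β i).domRestrict₁₂ Y Y) (by
      have e : (N + 1) * (2 * Fintype.card I + 1) =
          N * (2 * Fintype.card I + 1) + (2 * Fintype.card I + 1) := by ring
      omega)
    refine ⟨Fin.cons v fun j => (w j : X), ?_, ?_⟩
    · intro t ht
      rw [Fin.sum_univ_succ] at ht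
      simp only [Fin.cons_zero, Fin.cons_succ] at ht
      have h1 := congrArg φ ht
      rw [map_add, map_smul, hφ, map_sum, map_zero, smul_eq_mul, mul_one] at h1
      have h2 : ∑ j : Fin N, φ (t j.succ • (w j : X)) = 0 := by
        refine sum_eq_zero fun j _ => ?_
        rw [map_smul, (hY _ (w j).2).1, smul_zero]
      rw [h2, add_zero] at h1
      rw [h1, zero_smul, zero_add] at ht
      have h3 : ∑ j : Fin N, t j.succ • w j = 0 := by
        apply Subtype.ext
        rw [Submodule.coe_sum]
        simpa using ht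
      have h4 := hw (fun j => t j.succ) h3
      funext j
      refine Fin.cases h1 (fun j => ?_) j
      exact congrFun h4 j
    · intro j k
      refine Fin.cases ?_ (fun j => ?_) j <;> refine Fin.cases ?_ (fun k => ?_) k
      · intro h
        exact absurd rfl h
      · intro _ i
        simpa using ((hY _ (w k).2).2 i).1
      · intro _ i
        simpa using ((hY _ (w j).2).2 i).2
      · intro h i
        have h5 := horth j k (fun e => h (by rw [e])) i
        rw [LinearMap.domRestrict₁₂_apply] at h5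
        simpa only [Fin.cons_succ] using h5

/-- an isotropic vector -/
lemma iso_vec {I : Type} [Fintype I] (X : Type) [AddCommGroup X] [Module (ZMod p) X]
    [Module.Finite (ZMod p) X] (β : I → X →ₗ[ZMod p] X →ₗ[ZMod p] ZMod p)
    (h : (Fintype.card I * (p - 1) + 1) * (2 * Fintype.card I + 1) ≤ finrank (ZMod p) X) :
    ∃ v : X, v ≠ 0 ∧ ∀ i, β i v v = 0 := by
  obtain ⟨w, hw, horth⟩ := orth (Fintype.card I * (p - 1) + 1) X β h
  obtain ⟨t, ht, htt, hc⟩ := zero_sum fun i j => β i (w j) (w j)
  refine ⟨∑ j, t j • w j, fun h0 => ht (hw t h0), fun i => ?_⟩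
  have e : β i (∑ j, t j • w j) (∑ k, t k • w k) = ∑ j, ∑ k, t j * (t k * β i (w j) (w k)) := by
    rw [map_sum (β i), LinearMap.sum_apply]
    refine sum_congr rfl fun j _ => ?_
    rw [map_smul, LinearMap.smul_apply, map_sum, smul_eq_mul, mul_sum]
    refine sum_congr rfl fun k _ => ?_
    rw [map_smul, smul_eq_mul]
  rw [e, ← hc i]
  refine sum_congr rfl fun j _ => ?_
  rw [sum_eq_single j]
  · rw [← mul_assoc, htt]
  · intro k _ hk
    rw [horth j k (Ne.symm hk) i, mul_zero, mul_zero]
  · intro h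
    exact absurd (mem_univ _) h

/-- an isotropic subspace -/
lemma iso_space {I : Type} [Fintype I] (M : ℕ) : ∀ (X : Type) [AddCommGroup X]
    [Module (ZMod p) X] [Module.Finite (ZMod p) X] (β : I → X →ₗ[ZMod p] X →ₗ[ZMod p] ZMod p),
    (M + (Fintype.card I * (p - 1) + 1)) * (2 * Fintype.card I + 1) ≤ finrank (ZMod p) X →
    ∃ ι : (Fin M → ZMod p) →ₗ[ZMod p] X, Function.Injective ι ∧
      ∀ i a b, β i (ι a) (ι b) = 0 := by
  induction M with
  | zero =>
    intro X _ _ _ β _
    exact ⟨0, fun a b _ => Subsingleton.elim _ _, fun i a b => by simp⟩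
  | succ M ih =>
    intro X _ _ _ β h
    have e : (M + 1 + (Fintype.card I * (p - 1) + 1)) * (2 * Fintype.card I + 1) =
        (M + (Fintype.card I * (p - 1) + 1)) * (2 * Fintype.card I + 1) +
          (2 * Fintype.card I + 1) := by ring
    have e2 : (M + (Fintype.card I * (p - 1) + 1)) * (2 * Fintype.card I + 1) =
        M * (2 * Fintype.card I + 1) +
        (Fintype.card I * (p - 1) + 1) * (2 * Fintype.card I + 1) := by ring
    obtain ⟨v, hv, hvv⟩ := iso_vec X β (by omega)
    obtain ⟨φ, Y, hφ, hY, hf⟩ := pick β v hv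
    obtain ⟨ι, hι, hiso⟩ := ih Y (fun i => (β i).domRestrict₁₂ Y Y) (by omega)
    refine ⟨(LinearMap.toSpanSingleton (ZMod p) X v).comp (LinearMap.proj 0) +
      Y.subtype.comp (ι.comp (LinearMap.funLeft (ZMod p) (ZMod p) Fin.succ)), ?_, ?_⟩
    · rw [injective_iff_map_eq_zero]
      intro a ha
      simp only [LinearMap.add_apply, LinearMap.comp_apply, LinearMap.proj_apply,
        LinearMap.toSpanSingleton_apply, Submodule.subtype_apply] at ha
      have h1 := congrArg φ ha
      rw [map_add, map_smul, hφ, (hY _ (ι _).2).1, add_zero, map_zero, smul_eq_mul, mul_one] at h1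
      rw [h1, zero_smul, zero_add] at ha
      have h2 : ι (LinearMap.funLeft (ZMod p) (ZMod p) Fin.succ a) = 0 := Subtype.ext ha
      have h3 := hι (h2.trans (map_zero ι).symm)
      funext j
      refine Fin.cases h1 (fun j => ?_) j
      exact congrFun h3 j
    · intro i a b
      simp only [LinearMap.add_apply, LinearMap.comp_apply, LinearMap.proj_apply,
        LinearMap.toSpanSingleton_apply, Submodule.subtype_apply, map_add, map_smul,
        LinearMap.smul_apply, smul_eq_mul]
      rw [hvv, ((hY _ (ι _).2).2 i).1, ((hY _ (ι _).2).2 i).2]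
      have h5 := hiso i (LinearMap.funLeft (ZMod p) (ZMod p) Fin.succ a)
        (LinearMap.funLeft (ZMod p) (ZMod p) Fin.succ b)
      rw [LinearMap.domRestrict₁₂_apply] at h5
      rw [h5]
      simp

end Pool.Agent.N389.QF
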