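import Pool.Agent.N389.QF.Iso

set_option autoImplicit false

/-!
# Sets determined by polynomials of degree two
-/

namespace Pool.Agent.N389.QF

open Finset Module

variable {p : ℕ} [Fact p.Prime]

/-- `f` is a polynomial of degree at most two -/
def Quad {E : Type} [AddCommGroup E] [Module (ZMod p) E] (f : E → ZMod p) : Prop :=
  ∃ B : E →ₗ[ZMod p] E →ₗ[ZMod p] ZMod p, ∀ x y, f (x + y) = f x + f y - f 0 + B x y

lemma small_sub {Z : Type} [AddCommGroup Z] [Module (ZMod p) Z] [Module.Finite (ZMod p) Z] (m : ℕ)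
    (W : Submodule (ZMod p) Z) :
    ∃ θ : (Fin m → ZMod p) →ₗ[ZMod p] Z, m ≤ finrank (ZMod p) W →
      Function.Injective θ ∧ ∀ u, θ u ∈ W := by
  by_cases h : m ≤ finrank (ZMod p) W
  · have hb := (finBasis (ZMod p) W).linearIndependent.comp (Fin.castLE h)
      (Fin.castLE_injective h)
    refine ⟨W.subtype.comp (Fintype.linearCombination (ZMod p)
      ((finBasis (ZMod p) W) ∘ Fin.castLE h)), fun _ => ⟨?_, fun u => ?_⟩⟩
    · rw [LinearMap.coe_comp]
      exact (Submodule.subtype_injective W).comp hb.fintypeLinearCombination_injective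
    · exact Submodule.coe_mem _
  · exact ⟨0, fun h' => absurd h' h⟩

theorem main {T m : ℕ} {X E : Type} [AddCommGroup X] [Module (ZMod p) X]
    [Module.Finite (ZMod p) X] [AddCommGroup E] [Module (ZMod p) E] [Fintype E] [DecidableEq E]
    (J₀ J₁ : X →ₗ[ZMod p] E) (f : Fin T → E → ZMod p) (hf : ∀ i, Quad (f i))
    (hdim : (m + 2 * T + (4 * T * (p - 1) + 1)) * (8 * T + 1) ≤ finrank (ZMod p) X)
    (F A : Finset E) (hF : ∀ x y, (∀ i, f i x = f i y) → (x ∈ F ↔ y ∈ F)) (r : ℕ)
    (hA : ∀ (e : E) (θ : (Fin m → ZMod p) →ₗ[ZMod p] X), Function.Injective θ →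
      (univ.filter fun u : (Fin m → ZMod p) × (Fin m → ZMod p) =>
        e + J₀ (θ u.1) + J₁ (θ u.2) ∈ A).card ≤ r) :
    p ^ (2 * m) * (A ∩ F).card ≤ r * F.card := by
  classical
  choose B hB using hf
  obtain ⟨J, hJ⟩ : ∃ J : Bool → X →ₗ[ZMod p] E, J = fun b => cond b J₁ J₀ := ⟨_, rfl⟩
  have hJ0 : J false = J₀ := by rw [hJ]; rfl
  have hJ1 : J true = J₁ := by rw [hJ]; rfl
  have hcardI : Fintype.card (Fin T × Bool × Bool) = 4 * T := by
    simp only [Fintype.card_prod, Fintype.card_fin, Fintype.card_bool]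
    ring
  obtain ⟨ι, hι, hiso'⟩ := iso_space (p := p) (I := Fin T × Bool × Bool) (m + 2 * T) X
    (fun z => (B z.1).compl₁₂ (J z.2.1) (J z.2.2)) (by
      rw [hcardI]
      refine le_trans (le_of_eq ?_) hdim
      ring)
  have hiso : ∀ i a b x y, B i (J a (ι x)) (J b (ι y)) = 0 := by
    intro i a b x y
    have := hiso' (i, a, b) x y
    simpa only [LinearMap.compl₁₂_apply] using this
  -- the linear maps
  obtain ⟨G, hG⟩ : ∃ G : Fin T → Bool → ((Fin (m + 2 * T) → ZMod p) →+ ZMod p),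
      ∀ i b x, G i b x = f i (J b (ι x)) - f i 0 := by
    refine ⟨fun i b => AddMonoidHom.mk' (fun x => f i (J b (ι x)) - f i 0) ?_,
      fun _ _ _ => rfl⟩
    intro x y
    show f i (J b (ι (x + y))) - f i 0 = f i (J b (ι x)) - f i 0 + (f i (J b (ι y)) - f i 0)
    rw [map_add, map_add, hB, hiso]
    ring
  obtain ⟨Λ, hΛ⟩ : ∃ Λ : E → ((Fin (m + 2 * T) → ZMod p) →ₗ[ZMod p] (Fin T × Bool → ZMod p)),
      ∀ e x i b, Λ e x (i, b) = f i (J b (ι x)) - f i 0 + B i e (J b (ι x)) := by
    refine ⟨fun e => LinearMap.pi fun z => (G z.1 z.2).toZModLinearMap p +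
      (B z.1 e).comp ((J z.2).comp ι), fun e x i b => ?_⟩
    rw [LinearMap.pi_apply, LinearMap.add_apply, ← hG]
    rfl
  have hker : ∀ e, m ≤ finrank (ZMod p) (LinearMap.ker (Λ e)) := by
    intro e
    have h1 := LinearMap.finrank_range_add_finrank_ker (Λ e)
    have h2 := Submodule.finrank_le (LinearMap.range (Λ e))
    rw [finrank_fintype_fun_eq_card] at h2
    rw [finrank_fintype_fun_eq_card, Fintype.card_fin] at h1
    rw [Fintype.card_prod, Fintype.card_fin, Fintype.card_bool] at h2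
    omega
  choose θ hθ using fun W : Submodule (ZMod p) (Fin (m + 2 * T) → ZMod p) => small_sub m W
  -- the translations
  obtain ⟨τ, hτ⟩ : ∃ τ : E → (Fin m → ZMod p) × (Fin m → ZMod p) → E, ∀ e u, τ e u =
      e + J₀ (ι (θ (LinearMap.ker (Λ e)) u.1)) + J₁ (ι (θ (LinearMap.ker (Λ e)) u.2)) :=
    ⟨_, fun _ _ => rfl⟩
  have hΛτ : ∀ e x y, Λ (e + J₀ (ι x) + J₁ (ι y)) = Λ e := by
    intro e x y
    apply LinearMap.ext
    intro z
    funext w
    obtain ⟨i, b⟩ := w
    rw [hΛ, hΛ, map_add, map_add, LinearMap.add_apply, LinearMap.add_apply, ← hJ0, ← hJ1,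
      hiso, hiso, add_zero, add_zero]
  have hfτ : ∀ e u i, f i (τ e u) = f i e := by
    intro e u i
    have h1 := (hθ _ (hker e)).2 u.1
    have h2 := (hθ _ (hker e)).2 u.2
    rw [LinearMap.mem_ker] at h1 h2
    have h3 := congrFun h1 (i, false)
    have h4 := congrFun h2 (i, true)
    rw [hΛ, Pi.zero_apply] at h3 h4
    rw [hτ, ← hJ0, ← hJ1, hB, hB, map_add, LinearMap.add_apply, hiso]
    linear_combination h3 + h4
  have hττ : ∀ e u, τ (τ e u) (-u) = e := by
    intro e u
    have h1 : Λ (τ e u) = Λ e := by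
      rw [hτ]
      exact hΛτ _ _ _
    rw [hτ (τ e u), h1, hτ]
    simp only [Prod.fst_neg, Prod.snd_neg, map_neg]
    abel
  -- the double count
  have hcount : (univ.filter fun z : E × ((Fin m → ZMod p) × (Fin m → ZMod p)) =>
      z.1 ∈ F ∧ τ z.1 z.2 ∈ A).card =
      (univ.filter fun z : E × ((Fin m → ZMod p) × (Fin m → ZMod p)) => z.1 ∈ A ∩ F).card := by
    refine card_bijective (fun z => (τ z.1 z.2, -z.2)) ?_ fun z => ?_
    · apply Function.Involutive.bijective
      intro z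
      exact Prod.ext (hττ z.1 z.2) (neg_neg z.2)
    · rw [mem_filter, mem_filter]
      simp only [mem_univ, true_and, mem_inter]
      rw [hF (τ z.1 z.2) z.1 (hfτ z.1 z.2)]
      exact and_comm
  have h1 : (univ.filter fun z : E × ((Fin m → ZMod p) × (Fin m → ZMod p)) =>
      z.1 ∈ A ∩ F).card = p ^ (2 * m) * (A ∩ F).card := by
    have e : (univ.filter fun z : E × ((Fin m → ZMod p) × (Fin m → ZMod p)) => z.1 ∈ A ∩ F) =
        (A ∩ F) ×ˢ univ := by
      ext z
      simp
    rw [e, card_product, card_univ, Fintype.card_prod, Fintype.card_fun, ZMod.card,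
      Fintype.card_fin, mul_comm, two_mul, pow_add]
  have h2 : (univ.filter fun z : E × ((Fin m → ZMod p) × (Fin m → ZMod p)) =>
      z.1 ∈ F ∧ τ z.1 z.2 ∈ A).card ≤ r * F.card := by
    have h3 : (univ.filter fun z : E × ((Fin m → ZMod p) × (Fin m → ZMod p)) =>
        z.1 ∈ F ∧ τ z.1 z.2 ∈ A).card =
        ∑ e ∈ F, (univ.filter fun u : (Fin m → ZMod p) × (Fin m → ZMod p) => τ e u ∈ A).card := by
      rw [card_filter, Fintype.sum_prod_type, ← sum_filter_add_sum_filter_not univ fun e => e ∈ F]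
      have h4 : ∑ e ∈ univ.filter (fun e => ¬ e ∈ F), ∑ u : (Fin m → ZMod p) × (Fin m → ZMod p),
          (if (e, u).1 ∈ F ∧ τ (e, u).1 (e, u).2 ∈ A then 1 else 0) = 0 := by
        refine sum_eq_zero fun e he => sum_eq_zero fun u _ => ?_
        rw [if_neg]
        rintro ⟨h, -⟩
        exact (mem_filter.1 he).2 h
      rw [h4, add_zero]
      have e : univ.filter (fun e => e ∈ F) = F := by
        ext e
        simp
      rw [e]
      refine sum_congr rfl fun x hx => ?_
      rw [card_filter]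
      refine sum_congr rfl fun u _ => ?_
      simp [hx]
    rw [h3, mul_comm, ← smul_eq_mul, ← sum_const]
    refine sum_le_sum fun e _ => ?_
    refine le_trans (le_of_eq ?_) (hA e (ι.comp (θ (LinearMap.ker (Λ e)))) ?_)
    · refine congrArg card (filter_congr fun u _ => ?_)
      rw [hτ]
      rfl
    · rw [LinearMap.coe_comp]
      exact hι.comp (hθ _ (hker e)).1
  rw [← h1, ← hcount]
  exact h2

end Pool.Agent.N389.QF
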