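import Pool.Agent.N389.QF.Main

set_option autoImplicit false

/-!
# Polynomials of degree two, and progressions
-/

namespace Pool.Agent.N389.QF

open Finset Module

variable {p : ℕ} [Fact p.Prime]

/-- polynomials of degree two in linear coordinates -/
lemma quad_of_poly {E I : Type} [AddCommGroup E] [Module (ZMod p) E] [Fintype I]
    (z : E →ₗ[ZMod p] (I → ZMod p)) (c : ZMod p) (a : I → ZMod p) (b : I → I → ZMod p)
    (f : E → ZMod p)
    (hf : ∀ q, f q = c + ∑ i, a i * z q i + ∑ i, ∑ j, b i j * (z q i * z q j)) : Quad f := by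
  refine ⟨LinearMap.mk₂ (ZMod p)
    (fun x y => ∑ i, ∑ j, b i j * (z x i * z y j + z y i * z x j)) ?_ ?_ ?_ ?_, ?_⟩
  · intro x x' y
    simp only [map_add, Pi.add_apply]
    rw [← sum_add_distrib]
    refine sum_congr rfl fun i _ => ?_
    rw [← sum_add_distrib]
    refine sum_congr rfl fun j _ => ?_
    ring
  · intro s x y
    simp only [map_smul, Pi.smul_apply, smul_eq_mul, mul_sum]
    refine sum_congr rfl fun i _ => sum_congr rfl fun j _ => ?_
    ring
  · intro x y y'
    simp only [map_add, Pi.add_apply]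
    rw [← sum_add_distrib]
    refine sum_congr rfl fun i _ => ?_
    rw [← sum_add_distrib]
    refine sum_congr rfl fun j _ => ?_
    ring
  · intro s x y
    simp only [map_smul, Pi.smul_apply, smul_eq_mul, mul_sum]
    refine sum_congr rfl fun i _ => sum_congr rfl fun j _ => ?_
    ring
  · intro x y
    rw [hf, hf, hf, hf, LinearMap.mk₂_apply]
    have h1 : ∑ i, a i * z (x + y) i = ∑ i, a i * z x i + ∑ i, a i * z y i := by
      rw [← sum_add_distrib]
      refine sum_congr rfl fun i _ => ?_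
      rw [map_add, Pi.add_apply]
      ring
    have h2 : ∑ i, ∑ j, b i j * (z (x + y) i * z (x + y) j) =
        ∑ i, ∑ j, b i j * (z x i * z x j) + ∑ i, ∑ j, b i j * (z y i * z y j) +
          ∑ i, ∑ j, b i j * (z x i * z y j + z y i * z x j) := by
      rw [← sum_add_distrib, ← sum_add_distrib]
      refine sum_congr rfl fun i _ => ?_
      rw [← sum_add_distrib, ← sum_add_distrib]
      refine sum_congr rfl fun j _ => ?_
      rw [map_add, Pi.add_apply, Pi.add_apply]
      ring
    have h3 : ∑ i, a i * z 0 i = 0 := by simp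
    have h4 : ∑ i, ∑ j, b i j * (z 0 i * z 0 j) = 0 := by simp
    rw [h1, h2, h3, h4]
    ring

/-- no nontrivial `k`-term progression -/
def BAP (k : ℕ) {n : ℕ} (A : Finset (Fin n → ZMod p)) : Prop :=
  ∀ x y : Fin n → ZMod p, (∀ i < k, x + i • y ∈ A) → y = 0

theorem ap_quad {n T m k : ℕ} (f : Fin T → (Fin n → ZMod p) → ZMod p) (hf : ∀ i, Quad (f i))
    (hdim : (m + 2 * T + (4 * T * (p - 1) + 1)) * (8 * T + 1) ≤ n)
    (F A : Finset (Fin n → ZMod p)) (hF : ∀ x y, (∀ i, f i x = f i y) → (x ∈ F ↔ y ∈ F)) (r : ℕ)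
    (hA : BAP k A) (hr : ∀ S : Finset (Fin m → ZMod p), BAP k S → S.card ≤ r) :
    p ^ m * (A ∩ F).card ≤ r * F.card := by
  classical
  have h1 := main (p := p) (m := m) (LinearMap.id : (Fin n → ZMod p) →ₗ[ZMod p] (Fin n → ZMod p))
    0 f hf (by rw [finrank_fintype_fun_eq_card, Fintype.card_fin]; exact hdim) F A hF (r * p ^ m)
    (by
      intro e θ hθ
      have h2 : (univ.filter fun u : (Fin m → ZMod p) × (Fin m → ZMod p) =>
          e + (LinearMap.id : (Fin n → ZMod p) →ₗ[ZMod p] (Fin n → ZMod p)) (θ u.1) +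
            (0 : (Fin n → ZMod p) →ₗ[ZMod p] (Fin n → ZMod p)) (θ u.2) ∈ A) =
          (univ.filter fun u : Fin m → ZMod p => e + θ u ∈ A) ×ˢ univ := by
        ext u
        simp
      rw [h2, card_product, card_univ, Fintype.card_fun, ZMod.card, Fintype.card_fin]
      refine Nat.mul_le_mul_right _ (hr _ ?_)
      intro x y hxy
      have h3 := hA (e + θ x) (θ y) (fun i hi => by
        have h4 := (mem_filter.1 (hxy i hi)).2
        rwa [map_add, map_nsmul, ← add_assoc] at h4)
      exact (map_eq_zero_iff θ hθ).1 h3)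
  have hp : 0 < p ^ m := pow_pos (Fact.out : p.Prime).pos _
  have h5 : p ^ m * (p ^ m * (A ∩ F).card) ≤ p ^ m * (r * F.card) := by
    calc p ^ m * (p ^ m * (A ∩ F).card) = p ^ (2 * m) * (A ∩ F).card := by
          rw [two_mul, pow_add]; ring
      _ ≤ r * p ^ m * F.card := h1
      _ = p ^ m * (r * F.card) := by ring
  exact Nat.le_of_mul_le_mul_left h5 hp

/-- corner-free sets -/
def CFr {n : ℕ} (A : Finset ((Fin n → ZMod 2) × (Fin n → ZMod 2))) : Prop :=
  ∀ x y z : Fin n → ZMod 2, (x, y) ∈ A → (x, y + z) ∈ A → (x + z, y) ∈ A → z = 0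

theorem corner_quad {n T m : ℕ}
    (f : Fin T → (Fin n → ZMod 2) × (Fin n → ZMod 2) → ZMod 2)
    (hf : ∀ i, Quad (p := 2) (f i)) (hdim : (m + 6 * T + 1) * (8 * T + 1) ≤ n)
    (F A : Finset ((Fin n → ZMod 2) × (Fin n → ZMod 2)))
    (hF : ∀ x y, (∀ i, f i x = f i y) → (x ∈ F ↔ y ∈ F)) (r : ℕ) (hA : CFr A)
    (hr : ∀ S : Finset ((Fin m → ZMod 2) × (Fin m → ZMod 2)), CFr S → S.card ≤ r) :
    4 ^ m * (A ∩ F).card ≤ r * F.card := by
  classical
  have h1 := main (p := 2) (m := m)
    (LinearMap.inl (ZMod 2) (Fin n → ZMod 2) (Fin n → ZMod 2))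
    (LinearMap.inr (ZMod 2) (Fin n → ZMod 2) (Fin n → ZMod 2)) f hf (by
      rw [finrank_fintype_fun_eq_card, Fintype.card_fin]
      refine le_trans (le_of_eq ?_) hdim
      ring) F A hF r
    (by
      intro e θ hθ
      refine hr _ ?_
      intro x y z h1 h2 h3
      have e1 : ∀ u v : Fin m → ZMod 2,
          e + LinearMap.inl (ZMod 2) (Fin n → ZMod 2) (Fin n → ZMod 2) (θ u) +
            LinearMap.inr (ZMod 2) (Fin n → ZMod 2) (Fin n → ZMod 2) (θ v) =
          (e.1 + θ u, e.2 + θ v) := by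
        intro u v
        apply Prod.ext <;> simp
      have h1' := (mem_filter.1 h1).2
      have h2' := (mem_filter.1 h2).2
      have h3' := (mem_filter.1 h3).2
      simp only [e1] at h1' h2' h3'
      rw [map_add, ← add_assoc] at h2' h3'
      exact (map_eq_zero_iff θ hθ).1 (hA _ _ _ h1' h2' h3'))
  have e : (4 : ℕ) ^ m = 2 ^ (2 * m) := by rw [pow_mul]; norm_num
  rw [e]
  exact h1

end Pool.Agent.N389.QF
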