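import Pool.Agent.N389.QF.Poly
import Pool.Agent.N389.RB.Corner

set_option autoImplicit false

/-!
# Qualitative forms
-/

namespace Pool.Agent.N389.QF

open Finset Module

lemma dims (m : ℕ) : ∃ n₀ : ℕ, ∀ n T : ℕ, n₀ ≤ n → 400 * T ^ 2 ≤ n →
    (m + 6 * T + 1) * (8 * T + 1) ≤ n := by
  refine ⟨4 * (8 * m + 14) ^ 2 + 4 * (m + 1), fun n T hn hT => ?_⟩
  rcases Nat.lt_or_ge T (8 * m + 14) with h | h
  · have h1 : T * (8 * m + 14) ≤ (8 * m + 14) ^ 2 := by nlinarith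
    nlinarith
  · nlinarith

/-- corner-free sets have density tending to `0` -/
theorem corner_small (δ : ℝ) (hδ : 0 < δ) : ∃ N₀ : ℕ, ∀ m : ℕ, N₀ ≤ m →
    ∀ S : Finset ((Fin m → ZMod 2) × (Fin m → ZMod 2)), CFr S → (S.card : ℝ) ≤ δ * 4 ^ m := by
  obtain ⟨c, hc, N₀, H⟩ := Pool.Agent.N389.RB.corner_c δ hδ
  refine ⟨N₀, fun m hm S hS => ?_⟩
  have h1 := H m hm univ S (by
    have : Pool.Agent.N389.RB.bdp (univ : Finset ((Fin m → ZMod 2) × (Fin m → ZMod 2))) = 0 := by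
      simp [Pool.Agent.N389.RB.bdp]
    rw [this]
    simp only [Nat.cast_zero]
    positivity) hS
  rw [inter_univ, card_univ, Fintype.card_prod, Fintype.card_fun, ZMod.card, Fintype.card_fin] at h1
  refine h1.trans (le_of_eq ?_)
  push_cast
  rw [← mul_pow]
  norm_num

/-- corner-free sets in sets determined by at most `√n / 20` polynomials of degree two -/
theorem corner_quad_c (δ : ℝ) (hδ : 0 < δ) : ∃ n₀ : ℕ, ∀ n T : ℕ, n₀ ≤ n → 400 * T ^ 2 ≤ n →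
    ∀ f : Fin T → (Fin n → ZMod 2) × (Fin n → ZMod 2) → ZMod 2, (∀ i, Quad (p := 2) (f i)) →
    ∀ F A : Finset ((Fin n → ZMod 2) × (Fin n → ZMod 2)),
      (∀ x y, (∀ i, f i x = f i y) → (x ∈ F ↔ y ∈ F)) → CFr A →
      ((A ∩ F).card : ℝ) ≤ δ * F.card := by
  obtain ⟨m, hm⟩ := corner_small δ hδ
  obtain ⟨n₀, hn₀⟩ := dims m
  refine ⟨n₀, fun n T hn hT f hf F A hF hA => ?_⟩
  have h1 := corner_quad f hf (hn₀ n T hn hT) F A hF ⌊δ * 4 ^ m⌋₊ hA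
    (fun S hS => Nat.le_floor (hm m le_rfl S hS))
  have h2 : ((4 : ℝ) ^ m) * ((A ∩ F).card : ℝ) ≤ (⌊δ * 4 ^ m⌋₊ : ℕ) * F.card := by
    exact_mod_cast h1
  have h3 : ((⌊δ * 4 ^ m⌋₊ : ℕ) : ℝ) ≤ δ * 4 ^ m := Nat.floor_le (by positivity)
  have h4 : ((4 : ℝ) ^ m) * ((A ∩ F).card : ℝ) ≤ 4 ^ m * (δ * F.card) := by
    refine h2.trans ((mul_le_mul_of_nonneg_right h3 (Nat.cast_nonneg _)).trans (le_of_eq ?_))
    ring
  exact le_of_mul_le_mul_left h4 (by positivity)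

end Pool.Agent.N389.QF
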